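import Pool.Agent.L5helper82.UQ.Quot
import Pool.Agent.L5helper82.UQ.Small

set_option autoImplicit false

namespace Pool.Agent.Results.MP_3d4140_an.UniversalQuotient

open Filter Topology Pool.Agent.L5helper82.UQ

/-- Every (unital) Banach algebra with at most continuum many elements is the image of `B(X)` under a
continuous homomorphism which vanishes on the compact operators. -/
def Universal (𝕜 X : Type) [RCLike 𝕜] [NormedAddCommGroup X] [NormedSpace 𝕜 X] : Prop :=
  ∀ (B : Type) [NormedRing B] [NormedAlgebra 𝕜 B] [CompleteSpace B],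
    Cardinal.mk B ≤ Cardinal.continuum →
    ∃ ψ : (X →L[𝕜] X) →ₐ[𝕜] B, Continuous ψ ∧ Function.Surjective ψ ∧
      ∀ T : X →L[𝕜] X, IsCompactOperator T → ψ T = 0

/-- There is a continuous surjective, non-injective homomorphism from `B(X)` to `B(Y)`. -/
def NonInjectiveOnto (𝕜 X Y : Type) [RCLike 𝕜] [NormedAddCommGroup X] [NormedSpace 𝕜 X]
    [NormedAddCommGroup Y] [NormedSpace 𝕜 Y] : Prop :=
  ∃ ψ : (X →L[𝕜] X) →ₐ[𝕜] (Y →L[𝕜] Y), Continuous ψ ∧ Function.Surjective ψ ∧
    ¬ Function.Injective ψ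

/-- There is a separable Banach space `X` such that every Banach algebra with at most continuum many
elements is the image of `B(X)` under a continuous homomorphism vanishing on the compact operators;
in particular, there is a non-separable Banach space `Y` and a continuous surjective, non-injective
homomorphism from `B(X)` onto `B(Y)`. -/
theorem result (𝕜 : Type) [RCLike 𝕜] :
    ∃ (X : Type) (_ : NormedAddCommGroup X) (_ : NormedSpace 𝕜 X),
      CompleteSpace X ∧ TopologicalSpace.SeparableSpace X ∧ Universal 𝕜 X ∧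
      ∃ (Y : Type) (_ : NormedAddCommGroup Y) (_ : NormedSpace 𝕜 Y),
        CompleteSpace Y ∧ ¬ TopologicalSpace.SeparableSpace Y ∧ NonInjectiveOnto 𝕜 X Y := by
  obtain ⟨X, _, _, _, P, φ, hP1, -, -, hP4, hφ1, hφ2, hφ3⟩ := exists_space 𝕜
  have key : ∀ (B : Type) [NormedRing B] [NormedAlgebra 𝕜 B] [CompleteSpace B],
      Cardinal.mk B ≤ Cardinal.continuum →
      ∃ ψ : (X →L[𝕜] X) →ₐ[𝕜] B, Continuous ψ ∧ Function.Surjective ψ ∧
        ∀ T : X →L[𝕜] X, IsCompactOperator T → ψ T = 0 := by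
    intro B _ _ _ hB
    obtain ⟨ρ, hρ⟩ : ∃ ρ : K → {b : B // ‖b‖ ≤ 1}, Function.Surjective ρ := by
      have h1 : Cardinal.mk {b : B // ‖b‖ ≤ 1} ≤ Cardinal.mk K := by
        refine (Cardinal.mk_subtype_le _).trans (hB.trans ?_)
        exact Small.mk_K.ge
      obtain ⟨f⟩ := h1
      have : Nonempty {b : B // ‖b‖ ≤ 1} := ⟨⟨0, by simp⟩⟩
      exact ⟨Function.invFun f, Function.invFun_surjective f.injective⟩
    have h2 : ∀ k, ‖((ρ k : {b : B // ‖b‖ ≤ 1}) : B)‖ ≤ 1 := fun k => (ρ k).2
    refine ⟨(psi (𝕜 := 𝕜) (fun k => ((ρ k : {b : B // ‖b‖ ≤ 1}) : B)) h2).comp φ,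
      (psi_continuous _ h2).comp hφ1, (psi_surjective _ h2 fun b hb => ?_).comp hφ2,
      fun T hT => ?_⟩
    · obtain ⟨k, hk⟩ := hρ ⟨b, hb⟩
      exact ⟨k, congrArg Subtype.val hk⟩
    · show psi (𝕜 := 𝕜) _ h2 (φ T) = 0
      rw [(hφ3 T).2 hT, map_zero]
  refine ⟨X, inferInstance, inferInstance, inferInstance, ?_, key, Small.Y 𝕜, inferInstance,
    inferInstance, inferInstance, Small.not_separable, ?_⟩
  · have h1 : ∀ n, TopologicalSpace.IsSeparable (Set.range (P n)) := by
      intro n
      have := hP1 n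
      obtain ⟨s, hs⟩ : (LinearMap.range (P n : X →ₗ[𝕜] X)).FG :=
        Module.Finite.iff_fg.1 (hP1 n)
      have h2 : TopologicalSpace.IsSeparable ((Submodule.span 𝕜 (s : Set X) : Submodule 𝕜 X) : Set X) :=
        (s.countable_toSet.isSeparable).span
      rw [hs] at h2
      exact h2
    have h2 : TopologicalSpace.IsSeparable (⋃ n, Set.range (P n)) :=
      TopologicalSpace.IsSeparable.iUnion h1
    have h3 : closure (⋃ n, Set.range (P n)) = Set.univ := by
      refine Set.eq_univ_of_forall fun x => ?_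
      exact mem_closure_of_tendsto (hP4 x) (Eventually.of_forall fun n =>
        Set.mem_iUnion.2 ⟨n, x, rfl⟩)
    have h4 := h2.closure
    rw [h3] at h4
    exact TopologicalSpace.isSeparable_univ_iff.1 h4
  · obtain ⟨ψ, h1, h2, h3⟩ := key (Small.Y 𝕜 →L[𝕜] Small.Y 𝕜) Small.mk_operators
    refine ⟨ψ, h1, h2, fun h4 => ?_⟩
    -- every compact operator on `X` vanishes
    have h5 : ∀ T : X →L[𝕜] X, IsCompactOperator T → T = 0 := fun T hT =>
      h4 ((h3 T hT).trans (map_zero ψ).symm)
    have h6 : ∀ n, P n = 0 := by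
      intro n
      have := hP1 n
      have : ProperSpace (LinearMap.range (P n : X →ₗ[𝕜] X)) := FiniteDimensional.proper 𝕜 _
      refine h5 (P n) ?_
      have h7 : IsCompact ((fun y : LinearMap.range (P n : X →ₗ[𝕜] X) => (y : X)) ''
          Metric.closedBall 0 ‖P n‖) :=
        (isCompact_closedBall _ _).image continuous_subtype_val
      refine ⟨_, h7, ?_⟩
      filter_upwards [Metric.closedBall_mem_nhds (0 : X) one_pos] with x hx
      refine ⟨⟨P n x, x, rfl⟩, ?_, rfl⟩
      rw [mem_closedBall_zero_iff] at hx ⊢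
      show ‖P n x‖ ≤ ‖P n‖
      exact ((P n).le_opNorm x).trans (mul_le_of_le_one_right (norm_nonneg _) hx)
    have h7 : ∀ x : X, x = 0 := by
      intro x
      refine tendsto_nhds_unique (hP4 x) ?_
      simp only [h6, _root_.zero_apply]
      exact tendsto_const_nhds
    -- but then `B(Y)` is zero
    have h8 : ∀ S : Small.Y 𝕜 →L[𝕜] Small.Y 𝕜, S = 0 := by
      intro S
      obtain ⟨T, rfl⟩ := h2 S
      have : T = 0 := ContinuousLinearMap.ext fun x => h7 _
      rw [this, map_zero]
    refine Small.not_separable (𝕜 := 𝕜) ?_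
    have h9 : ∀ y : Small.Y 𝕜, y = 0 := fun y => by
      have := congrArg (fun S : Small.Y 𝕜 →L[𝕜] Small.Y 𝕜 => S y) (h8 1)
      exact this
    have : Subsingleton (Small.Y 𝕜) := ⟨fun a b => (h9 a).trans (h9 b).symm⟩
    infer_instance

end Pool.Agent.Results.MP_3d4140_an.UniversalQuotient
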